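import Mathlib

set_option autoImplicit false

namespace Pool.Agent.Results.MP_742028_co.Robustness

open SimpleGraph

/-- The subgraph `S` of `G` is a copy of `H`: it is isomorphic to `H`. -/
def IsCopy {W V : Type} (H : SimpleGraph W) {G : SimpleGraph V} (S : G.Subgraph) : Prop :=
  Nonempty (H ≃g S.coe)

/-- All edges of the subgraph `S` have the same colour under the edge colouring `c` of `G`. -/
def IsMono {V : Type} {G : SimpleGraph V} {r : ℕ} (c : G.edgeSet → Fin r) (S : G.Subgraph) :
    Prop :=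
  ∃ i : Fin r, ∀ (e : Sym2 V) (he : e ∈ S.edgeSet), c ⟨e, S.edgeSet_subset he⟩ = i

/-- The `r`-multiplicity `M_r(H, G)`: the minimum over all `r`-colourings of the edges of `G` of the
number of monochromatic copies of `H`. -/
noncomputable def multiplicity {W V : Type} (r : ℕ) (H : SimpleGraph W) (G : SimpleGraph V) : ℕ :=
  ⨅ c : G.edgeSet → Fin r, {S : G.Subgraph | IsCopy H S ∧ IsMono c S}.ncard

/-- `G →_r H`: every `r`-colouring of the edges of `G` has a monochromatic copy of `H`. -/
def Arrows {W V : Type} (r : ℕ) (G : SimpleGraph V) (H : SimpleGraph W) : Prop :=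
  ∀ c : G.edgeSet → Fin r, ∃ S : G.Subgraph, IsCopy H S ∧ IsMono c S

/-- The Ramsey `r`-robustness `Rob_r(H, G) = M_r(H, G) / M_1(H, G)`. -/
noncomputable def robustness {W V : Type} (r : ℕ) (H : SimpleGraph W) (G : SimpleGraph V) : ℝ :=
  (multiplicity r H G : ℝ) / (multiplicity 1 H G : ℝ)

/-- `G` is `r`-Ramsey-minimal for `H`, that is `G ∈ M_r(H)`. -/
def RamseyMinimal {W V : Type} (r : ℕ) (H : SimpleGraph W) (G : SimpleGraph V) : Prop :=
  Arrows r G H ∧ ∀ S : G.Subgraph, S ≠ ⊤ → ¬ Arrows r S.coe H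

/-- `H` is `r`-Ramsey-finite: up to isomorphism there are only finitely many `r`-Ramsey-minimal
graphs for `H`. -/
def RamseyFinite {W : Type} (r : ℕ) (H : SimpleGraph W) : Prop :=
  ∃ F : Finset (Σ n : ℕ, SimpleGraph (Fin n)), ∀ (n : ℕ) (G : SimpleGraph (Fin n)),
    RamseyMinimal r H G → ∃ P ∈ F, Nonempty (G ≃g P.2)

section

variable {W V V' : Type} {r : ℕ} {H : SimpleGraph W} {G : SimpleGraph V} {G' : SimpleGraph V'}

lemma arrows_iff : Arrows r G H ↔ ∀ c : G.edgeSet → Fin r, ∃ (f : H.Copy G) (i : Fin r),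
    ∀ a b (h : H.Adj a b), c ⟨s(f a, f b), f.toHom.map_adj h⟩ = i := by
  constructor
  · intro h c
    obtain ⟨S, ⟨φ⟩, i, hi⟩ := h c
    refine ⟨S.coeCopy.comp φ.toCopy, i, fun a b hab => ?_⟩
    have h1 : S.Adj (φ a).1 (φ b).1 := φ.map_adj_iff.2 hab
    exact hi s((φ a).1, (φ b).1) h1
  · intro h c
    obtain ⟨f, i, hi⟩ := h c
    refine ⟨f.toSubgraph, ⟨f.isoToSubgraph⟩, i, fun e he => ?_⟩
    induction e using Sym2.ind with
    | _ x y =>
      have h1 : (Subgraph.map f.toHom ⊤).Adj x y := he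
      rw [Subgraph.map_adj] at h1
      obtain ⟨a, b, hab, rfl, rfl⟩ := h1
      exact hi a b hab

lemma Arrows.mono (h : Arrows r G H) (f : G.Copy G') : Arrows r G' H := by
  rw [arrows_iff] at h ⊢
  intro c
  obtain ⟨g, i, hi⟩ := h (fun e => c ⟨Sym2.map f e.1, by
    obtain ⟨e, he⟩ := e
    induction e using Sym2.ind with
    | _ x y => exact f.toHom.map_adj he⟩)
  exact ⟨f.comp g, i, fun a b hab => hi a b hab⟩

/-- Deleting an edge from a Ramsey-minimal graph destroys the arrow property. -/
lemma RamseyMinimal.deleteEdge (h : RamseyMinimal r H G) (e : Sym2 V) (he : e ∈ G.edgeSet) :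
    ¬ Arrows r (G.deleteEdges {e}) H := by
  intro hA
  set D : G.Subgraph := (⊤ : G.Subgraph).deleteEdges {e} with hD
  have hne : D ≠ ⊤ := by
    intro hEq
    induction e using Sym2.ind with
    | _ x y =>
      have h1 : D.Adj x y := by rw [hEq]; exact he
      rw [hD, Subgraph.deleteEdges_adj] at h1
      exact h1.2 rfl
  refine h.2 D hne (hA.mono ⟨⟨fun x => ⟨x, trivial⟩, ?_⟩, ?_⟩)
  · intro a b hab
    rw [SimpleGraph.deleteEdges_adj] at hab
    exact (Subgraph.deleteEdges_adj ..).2 ⟨hab.1, hab.2⟩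
  · intro a b hab
    exact congrArg Subtype.val hab

/-- For each edge `e` of a Ramsey-minimal graph some colouring has all its monochromatic copies
through `e`. -/
lemma RamseyMinimal.exists_colouring (hr : 0 < r) (h : RamseyMinimal r H G) (e : Sym2 V)
    (he : e ∈ G.edgeSet) : ∃ c : G.edgeSet → Fin r, ∀ S : G.Subgraph, IsCopy H S → IsMono c S →
      e ∈ S.edgeSet := by
  classical
  have h1 := h.deleteEdge e he
  rw [arrows_iff] at h1
  push Not at h1
  obtain ⟨c, hc⟩ := h1
  refine ⟨fun e' => if h : e'.1 ∈ (G.deleteEdges {e}).edgeSet then c ⟨e'.1, h⟩ else ⟨0, hr⟩, ?_⟩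
  rintro S ⟨φ⟩ ⟨i, hi⟩
  by_contra heS
  have hadj : ∀ a b, H.Adj a b → (G.deleteEdges {e}).Adj (φ a).1 (φ b).1 := by
    intro a b hab
    have h2 : S.Adj (φ a).1 (φ b).1 := φ.map_adj_iff.2 hab
    rw [SimpleGraph.deleteEdges_adj]
    refine ⟨S.adj_sub h2, fun h3 => heS ?_⟩
    rw [Set.mem_singleton_iff] at h3
    rw [← h3]
    exact h2
  obtain ⟨a, b, hab, h4⟩ := hc ⟨⟨fun a => (φ a).1, fun {a b} hab => hadj a b hab⟩,
    Subtype.val_injective.comp φ.injective⟩ i
  apply h4
  have h2 : S.Adj (φ a).1 (φ b).1 := φ.map_adj_iff.2 hab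
  have h5 := hi s((φ a).1, (φ b).1) h2
  have h6 : s((φ a).1, (φ b).1) ∈ (G.deleteEdges {e}).edgeSet := hadj a b hab
  simp only [h6, dite_true] at h5
  exact h5

end

section Finite

variable {W V : Type} {r : ℕ} {H : SimpleGraph W} {G : SimpleGraph V}

lemma finite_subgraph [Finite V] (G : SimpleGraph V) : Finite G.Subgraph := by
  refine Finite.of_injective
    (fun S : G.Subgraph => ((S.verts, fun a b => S.Adj a b) : Set V × (V → V → Prop))) ?_
  intro S T h
  simp only [Prod.mk.injEq] at h
  exact Subgraph.ext h.1 h.2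

lemma multiplicity_one : multiplicity 1 H G = {S : G.Subgraph | IsCopy H S}.ncard := by
  unfold multiplicity
  have h1 : ∀ c : G.edgeSet → Fin 1, {S : G.Subgraph | IsCopy H S ∧ IsMono c S}.ncard =
      {S : G.Subgraph | IsCopy H S}.ncard := by
    intro c
    congr 1
    ext S
    simp only [Set.mem_ofPred_eq, and_iff_left_iff_imp]
    intro _
    exact ⟨0, fun e he => Subsingleton.elim _ _⟩
  simp_rw [h1]
  exact ciInf_const

lemma card_edges_of_copy [Finite V] {S : G.Subgraph} (h : IsCopy H S) :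
    S.edgeSet.ncard = H.edgeSet.ncard := by
  obtain ⟨φ⟩ := h
  have h1 : S.edgeSet = (fun e : Sym2 W => Sym2.map (fun a => (φ a).1) e) '' H.edgeSet := by
    ext e
    induction e using Sym2.ind with
    | _ x y =>
      constructor
      · intro he
        have he' : S.Adj x y := he
        have hx := S.edge_vert he'
        have hy := S.edge_vert he'.symm
        refine ⟨s(φ.symm ⟨x, hx⟩, φ.symm ⟨y, hy⟩), ?_, ?_⟩
        · rw [SimpleGraph.mem_edgeSet, ← φ.map_adj_iff]
          simpa using he'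
        · simp
      · rintro ⟨e, he, h2⟩
        induction e using Sym2.ind with
        | _ a b =>
          rw [← h2]
          have : S.coe.Adj (φ a) (φ b) := φ.map_adj_iff.2 he
          exact this
  rw [h1]
  apply Set.ncard_image_of_injective
  exact Sym2.map.injective (Subtype.val_injective.comp φ.injective)

/-- The averaging inequality: `M_r(H, G) e(G) ≤ e(H) M_1(H, G)` for Ramsey-minimal `G`. -/
lemma RamseyMinimal.key [Finite V] (hr : 0 < r) (h : RamseyMinimal r H G) :
    multiplicity r H G * G.edgeSet.ncard ≤ H.edgeSet.ncard * multiplicity 1 H G := by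
  classical
  have hV : Fintype V := Fintype.ofFinite V
  have hSf := finite_subgraph G
  have hS : Fintype G.Subgraph := Fintype.ofFinite _
  rw [multiplicity_one]
  have h1 : ∀ e ∈ G.edgeSet, multiplicity r H G ≤
      {S : G.Subgraph | IsCopy H S ∧ e ∈ S.edgeSet}.ncard := by
    intro e he
    obtain ⟨c, hc⟩ := h.exists_colouring hr e he
    refine le_trans (Nat.sInf_le ⟨c, rfl⟩) ?_
    refine Set.ncard_le_ncard ?_ (Set.toFinite _)
    rintro S ⟨h2, h3⟩
    exact ⟨h2, hc S h2 h3⟩
  have hGe : G.edgeSet.ncard = G.edgeFinset.card := by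
    rw [← SimpleGraph.coe_edgeFinset, Set.ncard_coe_finset]
  have h2 : ∀ e : Sym2 V, {S : G.Subgraph | IsCopy H S ∧ e ∈ S.edgeSet}.ncard =
      ∑ S : G.Subgraph, if IsCopy H S ∧ e ∈ S.edgeSet then 1 else 0 := by
    intro e
    rw [← Finset.card_filter, ← Set.ncard_coe_finset]
    congr 1
    ext S
    simp
  have h3 : ∀ S : G.Subgraph, IsCopy H S →
      (∑ e ∈ G.edgeFinset, if IsCopy H S ∧ e ∈ S.edgeSet then 1 else 0) = H.edgeSet.ncard := by
    intro S hS
    rw [← Finset.card_filter, ← card_edges_of_copy hS, ← Set.ncard_coe_finset]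
    congr 1
    ext e
    simp only [Finset.coe_filter, SimpleGraph.mem_edgeFinset, Set.mem_ofPred_eq, hS, true_and]
    exact ⟨fun h => h.2, fun h => ⟨S.edgeSet_subset h, h⟩⟩
  calc multiplicity r H G * G.edgeSet.ncard
      = ∑ e ∈ G.edgeFinset, multiplicity r H G := by
        rw [Finset.sum_const, smul_eq_mul, hGe, mul_comm]
    _ ≤ ∑ e ∈ G.edgeFinset, ∑ S : G.Subgraph, (if IsCopy H S ∧ e ∈ S.edgeSet then 1 else 0) := by
        apply Finset.sum_le_sum
        intro e he
        rw [← h2]
        exact h1 e (by simpa using he)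
    _ = ∑ S : G.Subgraph, ∑ e ∈ G.edgeFinset, (if IsCopy H S ∧ e ∈ S.edgeSet then 1 else 0) :=
        Finset.sum_comm
    _ = ∑ S : G.Subgraph, (if IsCopy H S then H.edgeSet.ncard else 0) := by
        apply Finset.sum_congr rfl
        intro S _
        by_cases hS : IsCopy H S
        · rw [if_pos hS, h3 S hS]
        · rw [if_neg hS]
          apply Finset.sum_eq_zero
          intro e _
          rw [if_neg (fun h => hS h.1)]
    _ = H.edgeSet.ncard * {S : G.Subgraph | IsCopy H S}.ncard := by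
        rw [← Finset.sum_filter, Finset.sum_const, smul_eq_mul, mul_comm]
        congr 1
        rw [← Set.ncard_coe_finset]
        congr 1
        ext S
        simp

lemma Arrows.one_pos [Finite V] (hr : 0 < r) (h : Arrows r G H) : 0 < multiplicity 1 H G := by
  have hSf := finite_subgraph G
  rw [multiplicity_one, Set.ncard_pos (Set.toFinite _)]
  obtain ⟨S, hS, _⟩ := h (fun _ => ⟨0, hr⟩)
  exact ⟨S, hS⟩

/-- A Ramsey-minimal graph with more vertices than `H` has no isolated vertex. -/
lemma RamseyMinimal.no_isolated [Fintype V] [Fintype W] (h : RamseyMinimal r H G)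
    (hc : Fintype.card W < Fintype.card V) (v : V) : ∃ w, G.Adj v w := by
  classical
  by_contra hv
  push Not at hv
  have key : Arrows r (G.induce {x | x ≠ v}) H := by
    rw [arrows_iff]
    intro c
    -- colour of the edge in `G`
    have hedge : ∀ e ∈ G.edgeSet, ∃ e' : (G.induce {x | x ≠ v}).edgeSet,
        Sym2.map Subtype.val e'.1 = e := by
      intro e he
      induction e using Sym2.ind with
      | _ x y =>
        have hxy : G.Adj x y := he
        have hx : x ≠ v := by rintro rfl; exact hv y hxy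
        have hy : y ≠ v := by rintro rfl; exact hv x hxy.symm
        exact ⟨⟨s(⟨x, hx⟩, ⟨y, hy⟩), hxy⟩, rfl⟩
    choose g hg using hedge
    have h0 := h.1
    rw [arrows_iff] at h0
    obtain ⟨f, i, hi⟩ := h0 (fun e => c (g e.1 e.2))
    obtain ⟨u, hu⟩ : ∃ u, u ∉ Set.range f := by
      by_contra hcon
      push Not at hcon
      have : Fintype.card V ≤ Fintype.card W := Fintype.card_le_of_surjective f hcon
      omega
    have hne : ∀ a, Equiv.swap v u (f a) ≠ v := by
      intro a ha
      rw [Equiv.swap_apply_eq_iff, Equiv.swap_apply_left] at ha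
      exact hu ⟨a, ha⟩
    have hfix : ∀ a b, H.Adj a b → Equiv.swap v u (f a) = f a := by
      intro a b hab
      apply Equiv.swap_apply_of_ne_of_ne
      · intro h1
        have h2 := f.toHom.map_adj hab
        have h3 : G.Adj (f a) (f b) := h2
        rw [h1] at h3
        exact hv _ h3
      · intro h1
        exact hu ⟨a, h1⟩
    refine ⟨⟨⟨fun a => ⟨Equiv.swap v u (f a), hne a⟩, ?_⟩, ?_⟩, i, ?_⟩
    · intro a b hab
      change G.Adj (Equiv.swap v u (f a)) (Equiv.swap v u (f b))
      rw [hfix a b hab, hfix b a hab.symm]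
      exact f.toHom.map_adj hab
    · intro a b hab
      have h1 := congrArg Subtype.val hab
      exact f.injective ((Equiv.swap v u).injective h1)
    · intro a b hab
      have h1 := hi a b hab
      rw [← h1]
      congr 1
      apply Subtype.ext
      apply Sym2.map.injective Subtype.val_injective
      rw [hg]
      change s(Equiv.swap v u (f a), Equiv.swap v u (f b)) = s(f a, f b)
      rw [hfix a b hab, hfix b a hab.symm]
  set D : G.Subgraph := (⊤ : G.Subgraph).deleteVerts {v} with hD
  have hne : D ≠ ⊤ := by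
    intro hEq
    have h1 : v ∈ D.verts := by rw [hEq]; trivial
    rw [hD, Subgraph.deleteVerts_verts] at h1
    exact h1.2 rfl
  refine h.2 D hne (key.mono ⟨⟨fun x => ⟨x.1, ?_⟩, ?_⟩, ?_⟩)
  · rw [hD, Subgraph.deleteVerts_verts]
    exact ⟨trivial, x.2⟩
  · intro a b hab
    exact Subgraph.deleteVerts_adj.2 ⟨trivial, a.2, trivial, b.2, hab⟩
  · intro a b hab
    have h1 := congrArg Subtype.val hab
    exact Subtype.ext h1

lemma RamseyMinimal.card_le [Fintype V] [Fintype W] (h : RamseyMinimal r H G) :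
    Fintype.card V ≤ max (Fintype.card W) (2 * G.edgeSet.ncard) := by
  classical
  by_contra hcon
  rw [not_le, max_lt_iff] at hcon
  obtain ⟨h1, h2⟩ := hcon
  have h3 := h.no_isolated h1
  have h4 : ∑ v : V, G.degree v = 2 * G.edgeFinset.card := G.sum_degrees_eq_twice_card_edges
  have h5 : Fintype.card V ≤ ∑ v : V, G.degree v := by
    calc Fintype.card V = ∑ v : V, 1 := by simp
      _ ≤ ∑ v : V, G.degree v := by
        apply Finset.sum_le_sum
        intro v _
        obtain ⟨w, hw⟩ := h3 v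
        exact (G.degree_pos_iff_exists_adj v).2 ⟨w, hw⟩
  have hGe : G.edgeSet.ncard = G.edgeFinset.card := by
    rw [← SimpleGraph.coe_edgeFinset, Set.ncard_coe_finset]
  omega

end Finite

/-- Ramsey robustness: for every `r ≥ 2` and every `r`-Ramsey-infinite graph `H`, the infimum of
`Rob_r(H, G)` over all `r`-Ramsey-minimal graphs `G` for `H` is `0`. -/
theorem result (r : ℕ) (hr : 2 ≤ r) (W : Type) [Finite W] (H : SimpleGraph W)
    (hH : ¬ RamseyFinite r H) :
    sInf {x : ℝ | ∃ (n : ℕ) (G : SimpleGraph (Fin n)), RamseyMinimal r H G ∧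
      x = robustness r H G} = 0 := by
  classical
  have hW : Fintype W := Fintype.ofFinite W
  have hr0 : 0 < r := by omega
  have hnn : ∀ x ∈ {x : ℝ | ∃ (n : ℕ) (G : SimpleGraph (Fin n)), RamseyMinimal r H G ∧
      x = robustness r H G}, 0 ≤ x := by
    rintro x ⟨n, G, _, rfl⟩
    unfold robustness
    positivity
  apply le_antisymm _ (Real.sInf_nonneg hnn)
  by_contra hcon
  rw [not_le] at hcon
  obtain ⟨ε, hε⟩ : ∃ ε, ε = sInf {x : ℝ | ∃ (n : ℕ) (G : SimpleGraph (Fin n)),
    RamseyMinimal r H G ∧ x = robustness r H G} := ⟨_, rfl⟩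
  rw [← hε] at hcon
  have hall : ∀ (n : ℕ) (G : SimpleGraph (Fin n)), RamseyMinimal r H G →
      ε ≤ robustness r H G := by
    intro n G hG
    rw [hε]
    exact csInf_le ⟨0, hnn⟩ ⟨n, G, hG, rfl⟩
  apply hH
  obtain ⟨K, hK⟩ : ∃ K : ℕ, (H.edgeSet.ncard : ℝ) / ε ≤ K := exists_nat_ge _
  refine ⟨(Finset.range (max (Fintype.card W) (2 * K) + 1)).sigma
    (fun n => (Finset.univ : Finset (SimpleGraph (Fin n)))), fun n G hG => ?_⟩
  refine ⟨⟨n, G⟩, ?_, ⟨SimpleGraph.Iso.refl⟩⟩
  rw [Finset.mem_sigma]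
  refine ⟨?_, Finset.mem_univ _⟩
  rw [Finset.mem_range, Nat.lt_succ_iff]
  have h1 := hG.card_le
  rw [Fintype.card_fin] at h1
  refine le_trans h1 (max_le_max le_rfl (Nat.mul_le_mul_left 2 ?_))
  have h2 := hG.key hr0
  have h3 := hall n G hG
  have h4 : (0 : ℝ) < multiplicity 1 H G := by exact_mod_cast hG.1.one_pos hr0
  unfold robustness at h3
  rw [le_div_iff₀ h4] at h3
  have h5 : (multiplicity r H G : ℝ) * G.edgeSet.ncard ≤ H.edgeSet.ncard * multiplicity 1 H G := by
    exact_mod_cast h2
  have h6 : ε * G.edgeSet.ncard ≤ H.edgeSet.ncard := by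
    have h7 : ε * multiplicity 1 H G * G.edgeSet.ncard ≤
        H.edgeSet.ncard * multiplicity 1 H G := by
      refine le_trans ?_ h5
      gcongr
    nlinarith
  have h8 : (G.edgeSet.ncard : ℝ) ≤ K := by
    refine le_trans ?_ hK
    rw [le_div_iff₀ hcon]
    linarith
  exact_mod_cast h8

end Pool.Agent.Results.MP_742028_co.Robustness
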